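import Pool.Agent.Y416.FS.Main

/-!
# The popular Furstenberg–Sárközy theorem fails at every density and at every scale

The earlier result of this repository (`SuperPoly`) shows that the threshold `N₀(ε)` is
superpolynomial, and its proof gives the lower bound `exp (ε^(-1/100))`, by bad sets of density
about `1/2` in `{1, …, N}` for special `N`.

Here bad sets are constructed for **every** density `δ` and for **every** `N` in a range which
is exponential in a power of `min(δ, 1-δ)² / ε`, with every exponent `c < 1/10`; the same set is bad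
for all shifts `a y²` with `0 < |a| ≤ 1 + log log N / C`. In particular every `N` from `1` up to
`exp (ε^(-c))` fails to be `ε`-good.
-/

namespace Pool.Agent.Results.MP_071fc1_co.DensityScales

/-- `N` is `ε`-good: for every `δ ∈ (0,1]` and every `A ⊆ {1,…,N}` with `|A| ≥ δ N` there is an
integer `y ≠ 0` such that at least `(δ² - ε) N` integers `x` satisfy `x ∈ A` and `x + y² ∈ A`. -/
def IsGood (ε : ℝ) (N : ℕ) : Prop :=
  ∀ δ : ℝ, 0 < δ → δ ≤ 1 → ∀ A : Finset ℤ, A ⊆ Finset.Icc 1 (N : ℤ) → δ * N ≤ (A.card : ℝ) →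
    ∃ y : ℤ, y ≠ 0 ∧ (δ ^ 2 - ε) * N ≤ ((A.filter (fun x => x + y ^ 2 ∈ A)).card : ℝ)

/-- There is a set `A ⊆ {1,…,N}` with `|A| ≥ δ N` such that for every integer `y ≠ 0` and every
integer `a` with `0 < |a| ≤ H` fewer than `(δ² - ε) N` integers `x` satisfy `x ∈ A` and
`x + a y² ∈ A`. -/
def NoPopular (ε δ H : ℝ) (N : ℕ) : Prop :=
  ∃ A : Finset ℤ, A ⊆ Finset.Icc 1 (N : ℤ) ∧ δ * N ≤ (A.card : ℝ) ∧
    ∀ y a : ℤ, y ≠ 0 → a ≠ 0 → |(a : ℝ)| ≤ H →
      ((A.filter (fun x => x + a * y ^ 2 ∈ A)).card : ℝ) < (δ ^ 2 - ε) * N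

/-- Every density and every scale. -/
theorem all_densities (c : ℝ) (hc0 : 0 < c) (hc : c < 1 / 10) :
    ∃ C : ℝ, 1 ≤ C ∧ ∀ ε δ : ℝ, 0 < ε → 0 < δ → δ < 1 → ∀ N : ℕ,
      C ≤ (min δ (1 - δ)) ^ 9 * N →
      (N : ℝ) ≤ Real.exp (((min δ (1 - δ)) ^ 2 / (C * ε)) ^ c) →
      NoPopular ε δ (1 + Real.log (Real.log N) / C) N := by
  obtain ⟨C, hC1, hC⟩ := Pool.Agent.Y416.FS.main_est c hc0 hc
  refine ⟨C, hC1, ?_⟩
  intro ε δ hε hδ0 hδ1 N hN1 hN2
  obtain ⟨K, hK, A, hA, hA1, hA2⟩ := hC ε δ (min δ (1 - δ)) hε (lt_min hδ0 (by linarith))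
    (min_le_left _ _) (min_le_right _ _) N hN1 hN2
  refine ⟨A, hA, hA1, ?_⟩
  intro y a hy ha haH
  apply hA2 y hy a ha
  have h1 : |(a : ℝ)| ≤ (K : ℝ) := haH.trans hK
  have h2 : ((|a| : ℤ) : ℝ) ≤ ((K : ℤ) : ℝ) := by
    push_cast
    exact h1
  exact_mod_cast h2

/-- The full interval is bad for small `N`. -/
theorem small_bad (ε : ℝ) (N : ℕ) (hN : 1 ≤ N) (hε : ε * N < 1) : ¬ IsGood ε N := by
  intro h
  have hN0 : (0 : ℝ) < N := by exact_mod_cast hN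
  obtain ⟨y, hy, hy2⟩ := h 1 one_pos le_rfl (Finset.Icc 1 (N : ℤ)) (Finset.Subset.refl _)
    (by simp)
  have hlt : ((Finset.Icc 1 (N : ℤ)).filter (fun x => x + y ^ 2 ∈ Finset.Icc 1 (N : ℤ))).card <
      (Finset.Icc 1 (N : ℤ)).card := by
    apply Finset.card_lt_card
    rw [Finset.ssubset_iff_of_subset (Finset.filter_subset _ _)]
    refine ⟨(N : ℤ), ?_, ?_⟩
    · rw [Finset.mem_Icc]
      exact ⟨by exact_mod_cast hN, le_rfl⟩
    · rw [Finset.mem_filter, Finset.mem_Icc, Finset.mem_Icc]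
      rintro ⟨_, _, h3⟩
      have : 0 < y ^ 2 := by positivity
      linarith
  rw [Int.card_Icc] at hlt
  simp only [add_sub_cancel_right, Int.toNat_natCast] at hlt
  have h4 : (((Finset.Icc 1 (N : ℤ)).filter
      (fun x => x + y ^ 2 ∈ Finset.Icc 1 (N : ℤ))).card : ℝ) + 1 ≤ N := by exact_mod_cast hlt
  have h5 : ((1 : ℝ) ^ 2 - ε) * N = N - ε * N := by ring
  rw [h5] at hy2
  linarith

/-- Every `N` up to `exp (ε^(-c))` fails to be `ε`-good. -/
theorem all_scales (c : ℝ) (hc0 : 0 < c) (hc : c < 1 / 10) :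
    ∃ ε₀ : ℝ, 0 < ε₀ ∧ ∀ ε : ℝ, 0 < ε → ε < ε₀ →
      ∀ N : ℕ, 1 ≤ N → (N : ℝ) ≤ Real.exp (ε ^ (-c)) → ¬ IsGood ε N := by
  set c' : ℝ := (c + 1 / 10) / 2 with hc'
  have hcc' : c < c' := by rw [hc']; linarith
  have hc'0 : 0 < c' := by linarith
  obtain ⟨C, hC1, hC⟩ := all_densities c' hc'0 (by rw [hc']; linarith)
  have hC0 : 0 < C := by linarith
  set s : ℝ := c' / (c' - c) with hs
  have hs0 : 0 < s := by rw [hs]; apply div_pos hc'0; linarith
  refine ⟨min (1 / (512 * C)) ((4 * C) ^ (-s)), by positivity, ?_⟩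
  intro ε hε hε1 N hN1 hN2
  have he1 : ε < 1 / (512 * C) := lt_of_lt_of_le hε1 (min_le_left _ _)
  have he2 : ε < (4 * C) ^ (-s) := lt_of_lt_of_le hε1 (min_le_right _ _)
  have hN0 : (0 : ℝ) < N := by exact_mod_cast hN1
  rw [lt_div_iff₀ (by positivity)] at he1
  by_cases hsmall : (N : ℝ) < 512 * C
  · apply small_bad ε N hN1
    calc ε * N < ε * (512 * C) := mul_lt_mul_of_pos_left hsmall hε
      _ < 1 := he1
  · push Not at hsmall
    have hmin : min (1 / 2 : ℝ) (1 - 1 / 2) = 1 / 2 := by norm_num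
    have hexp : (N : ℝ) ≤ Real.exp (((min (1 / 2 : ℝ) (1 - 1 / 2)) ^ 2 / (C * ε)) ^ c') := by
      refine hN2.trans (Real.exp_le_exp.mpr ?_)
      rw [hmin]
      have e1 : ((1 / 2 : ℝ) ^ 2 / (C * ε)) ^ c' = (4 * C) ^ (-c') * ε ^ (-c') := by
        have : (1 / 2 : ℝ) ^ 2 / (C * ε) = ((4 * C) * ε)⁻¹ := by field_simp; norm_num
        rw [this, Real.inv_rpow (by positivity), Real.mul_rpow (by positivity) hε.le, mul_inv,
          Real.rpow_neg (by positivity), Real.rpow_neg hε.le]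
      have e2 : ε ^ (-c') = ε ^ (-c) * ε ^ (-(c' - c)) := by
        rw [← Real.rpow_add hε]
        congr 1
        ring
      have e3 : (4 * C) ^ c' ≤ ε ^ (-(c' - c)) := by
        have h1 : ((4 * C) ^ (-s)) ^ (-(c' - c)) ≤ ε ^ (-(c' - c)) :=
          Real.rpow_le_rpow_of_nonpos hε he2.le (by linarith)
        have h2 : ((4 * C) ^ (-s)) ^ (-(c' - c)) = (4 * C) ^ c' := by
          rw [← Real.rpow_mul (by positivity)]
          congr 1
          rw [hs]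
          have : c' - c ≠ 0 := by linarith
          field_simp
        rw [h2] at h1
        exact h1
      rw [e1, e2]
      have hεc : 0 < ε ^ (-c) := Real.rpow_pos_of_pos hε _
      have h4C : 0 < (4 * C) ^ c' := by positivity
      have hm : (4 * C) ^ (-c') * (4 * C) ^ c' = 1 := by
        rw [← Real.rpow_add (by positivity), neg_add_cancel, Real.rpow_zero]
      calc ε ^ (-c) = ε ^ (-c) * ((4 * C) ^ (-c') * (4 * C) ^ c') := by rw [hm, mul_one]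
        _ = (4 * C) ^ (-c') * (ε ^ (-c) * (4 * C) ^ c') := by ring
        _ ≤ (4 * C) ^ (-c') * (ε ^ (-c) * ε ^ (-(c' - c))) := by gcongr
    obtain ⟨A, hA, hA1, hA2⟩ := hC ε (1 / 2) hε (by norm_num) (by norm_num) N
      (by rw [hmin]; norm_num; linarith) hexp
    intro hgood
    obtain ⟨y, hy, hy2⟩ := hgood (1 / 2) (by norm_num) (by norm_num) A hA hA1
    have hNe : (1 : ℝ) ≤ Real.log N := by
      rw [Real.le_log_iff_exp_le hN0]
      have := Real.exp_one_lt_d9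
      linarith
    have h1 := hA2 y 1 hy one_ne_zero (by
      have : 0 ≤ Real.log (Real.log N) / C := div_nonneg (Real.log_nonneg hNe) hC0.le
      simp
      exact this)
    simp only [one_mul] at h1
    linarith

/-- **Main theorem.** Let `0 < c < 1/10`.

1. (every density, every scale) There is `C ≥ 1` such that for all `ε > 0`, all `0 < δ < 1` with
`κ = min(δ, 1-δ)`, and all `N` with `C κ^(-9) ≤ N ≤ exp ((κ²/(Cε))^c)` some `A ⊆ {1,…,N}` with
`|A| ≥ δ N` satisfies `#{x ∈ A : x + a y² ∈ A} < (δ² - ε) N` for every `y ≠ 0` and every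
`0 < |a| ≤ 1 + log log N / C`.

2. (no good scale) For all small `ε` no `N` with `1 ≤ N ≤ exp (ε^(-c))` is `ε`-good; hence
`N₀(ε) > exp (ε^(-c))`.

3. (the original question) `N₀(ε)` grows faster than every polynomial in `1/ε`. -/
theorem result (c : ℝ) (hc0 : 0 < c) (hc : c < 1 / 10) :
    (∃ C : ℝ, 1 ≤ C ∧ ∀ ε δ : ℝ, 0 < ε → 0 < δ → δ < 1 → ∀ N : ℕ,
      C ≤ (min δ (1 - δ)) ^ 9 * N →
      (N : ℝ) ≤ Real.exp (((min δ (1 - δ)) ^ 2 / (C * ε)) ^ c) →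
      NoPopular ε δ (1 + Real.log (Real.log N) / C) N) ∧
    (∃ ε₀ : ℝ, 0 < ε₀ ∧ ∀ ε : ℝ, 0 < ε → ε < ε₀ →
      (∀ N : ℕ, 1 ≤ N → (N : ℝ) ≤ Real.exp (ε ^ (-c)) → ¬ IsGood ε N) ∧
      ∀ n₀ : ℕ, IsLeast {n : ℕ | ∀ N : ℕ, n ≤ N → IsGood ε N} n₀ →
        Real.exp (ε ^ (-c)) < n₀) ∧
    (∀ D : ℝ, 0 < D → ∃ ε₀ : ℝ, 0 < ε₀ ∧ ∀ ε : ℝ, 0 < ε → ε < ε₀ →
      (∃ N : ℕ, ε ^ (-D) < N ∧ ¬ IsGood ε N) ∧
      ∀ n₀ : ℕ, IsLeast {n : ℕ | ∀ N : ℕ, n ≤ N → IsGood ε N} n₀ → ε ^ (-D) < n₀) := by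
  have hleast : ∀ ε : ℝ, 0 < ε →
      (∀ N : ℕ, 1 ≤ N → (N : ℝ) ≤ Real.exp (ε ^ (-c)) → ¬ IsGood ε N) →
      ∀ n₀ : ℕ, IsLeast {n : ℕ | ∀ N : ℕ, n ≤ N → IsGood ε N} n₀ →
        Real.exp (ε ^ (-c)) < n₀ := by
    intro ε hε hbad n₀ hn₀
    by_contra hcon
    push Not at hcon
    have hexp1 : (1 : ℝ) ≤ Real.exp (ε ^ (-c)) :=
      Real.one_le_exp (Real.rpow_nonneg hε.le _)
    rcases Nat.eq_zero_or_pos n₀ with h0 | h0
    · have := hn₀.1 1 (by omega)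
      exact hbad 1 le_rfl (by simpa using hexp1) this
    · exact hbad n₀ h0 hcon (hn₀.1 n₀ le_rfl)
  obtain ⟨ε₀, hε₀, hbad⟩ := all_scales c hc0 hc
  refine ⟨all_densities c hc0 hc, ⟨ε₀, hε₀, fun ε hε hεε₀ =>
    ⟨hbad ε hε hεε₀, hleast ε hε (hbad ε hε hεε₀)⟩⟩, ?_⟩
  intro D hD
  have hO := (isLittleO_rpow_exp_atTop (D / c)).bound (show (0 : ℝ) < 1 / 4 by norm_num)
  obtain ⟨T, hT⟩ := Filter.eventually_atTop.mp hO
  set S : ℝ := max T 4 with hS
  have hS4 : 4 ≤ S := le_max_right _ _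
  refine ⟨min ε₀ (S ^ (-(1 / c))), by positivity, ?_⟩
  intro ε hε hε1
  have he1 : ε < ε₀ := lt_of_lt_of_le hε1 (min_le_left _ _)
  have he2 : ε < S ^ (-(1 / c)) := lt_of_lt_of_le hε1 (min_le_right _ _)
  set t : ℝ := ε ^ (-c) with ht
  have ht0 : 0 < t := Real.rpow_pos_of_pos hε _
  have hSt : S ≤ t := by
    have h1 : (S ^ (-(1 / c))) ^ (-c) ≤ ε ^ (-c) :=
      Real.rpow_le_rpow_of_nonpos hε he2.le (by linarith)
    have h2 : (S ^ (-(1 / c))) ^ (-c) = S := by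
      rw [← Real.rpow_mul (by positivity)]
      have : -(1 / c) * -c = 1 := by field_simp
      rw [this, Real.rpow_one]
    rw [h2] at h1
    exact h1
  have hpow : ε ^ (-D) = t ^ (D / c) := by
    rw [ht, ← Real.rpow_mul hε.le]
    congr 1
    field_simp
  have h1 := hT t ((le_max_left T 4).trans hSt)
  rw [Real.norm_of_nonneg (Real.rpow_nonneg ht0.le _), Real.norm_of_nonneg (Real.exp_pos t).le,
    ← hpow] at h1
  have h2 : t + 1 ≤ Real.exp t := Real.add_one_le_exp t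
  have hpos : 0 < ε ^ (-D) := Real.rpow_pos_of_pos hε _
  have hlt : ε ^ (-D) < Real.exp t := by linarith
  refine ⟨⟨⌊ε ^ (-D)⌋₊ + 1, ?_, ?_⟩, ?_⟩
  · push_cast
    exact Nat.lt_floor_add_one _
  · apply hbad ε hε he1 _ (by omega)
    push_cast
    have h3 := Nat.floor_le hpos.le
    rw [← ht]
    linarith
  · intro n₀ hn₀
    have := hleast ε hε (hbad ε hε he1) n₀ hn₀
    rw [← ht] at this
    linarith

end Pool.Agent.Results.MP_071fc1_co.DensityScales
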